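import Mathlib
import Pool.Agent.Lib_helper6.Final

/-!
# Auxiliary facts for the textbook form: lower integrals with values in `[0, ∞]`
-/

open Finset MeasureTheory
open scoped ENNReal

namespace Pool.Agent.Lib_helper6.Ins.F69

open Pool.Agent.Lib_helper6.Vdc Pool.Agent.Lib_helper6.Fams Pool.Agent.Lib_helper6.Sum Pool.Agent.Lib_helper6.Absorb Pool.Agent.Lib_helper6.NFun Pool.Agent.Lib_helper6.Final

theorem v_half (n : ℕ) : v n ^ 2 = v (n / 2) := by
  rcases Nat.even_or_odd' n with ⟨k, hk | hk⟩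
  · rw [hk, v_even_sq]
    congr 1
    omega
  · rw [hk, v_odd, neg_sq, v_even_sq]
    congr 1
    omega

theorem v_injective : Function.Injective v := by
  intro a
  induction a using Nat.strong_induction_on with
  | _ a ih =>
    intro b hab
    have hsq : v (a / 2) = v (b / 2) := by rw [← v_half, ← v_half, hab]
    rcases Nat.eq_zero_or_pos a with rfl | ha
    · -- `v b = v 0`
      clear ih hsq
      have key : ∀ b : ℕ, v 0 = v b → 0 = b := by
        intro b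
        induction b using Nat.strong_induction_on with
        | _ b ihb =>
          intro hb
          rcases Nat.eq_zero_or_pos b with rfl | hbp
          · rfl
          · exfalso
            have h1 : v 0 = v (b / 2) := by
              rw [← v_half, ← hb, v_zero]; norm_num
            have h2 := ihb (b / 2) (by omega) h1
            have h3 : b = 2 * 0 + 1 := by omega
            rw [h3, v_odd, mul_zero, v_zero] at hb
            norm_num [Complex.ext_iff] at hb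
      exact key b hab
    · have h1 := ih (a / 2) (by omega) hsq
      by_contra hne
      rcases Nat.even_or_odd' a with ⟨k, hk | hk⟩
      · have hb : b = 2 * k + 1 := by omega
        rw [hk, hb, v_odd] at hab
        exact v_ne_zero (2 * k) (self_eq_neg.mp hab)
      · have hb : b = 2 * k := by omega
        rw [hk, hb, v_odd] at hab
        exact v_ne_zero (2 * k) (neg_eq_self.mp hab)

/-- The discrete version of the integrability condition (as `NFun.discrete`). -/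
theorem discrete' {ρ : ℕ → ℝ} {A : ℕ → ℕ} (h : Sq ρ A) {p α : ℝ} (hp : 0 < p)
    (hfin : ∫⁻ r in Set.Ioo (0 : ℝ) 1, ENNReal.ofReal ((1 - r) ^ α *
        Real.exp (p * ∫ t in (0 : ℝ)..r, (Nat.card {j : ℕ // ρ j ≤ t} : ℝ) / t)) ≠ ∞) :
    ∑' k : ℕ, ENNReal.ofReal (((1 / 2 : ℝ) ^ (α + 1)) ^ k * Real.exp (p * Nn ρ A k)) ≠ ∞ := by
  set G : ℝ → ℝ := fun r : ℝ => (1 - r) ^ α *
        Real.exp (p * ∫ t in (0 : ℝ)..r, (Nat.card {j : ℕ // ρ j ≤ t} : ℝ) / t) with hG
  have hdisj : Pairwise (Function.onFun Disjoint (fun k : ℕ => Set.Ioo (rr k) (rr (k + 1)))) := by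
    have key : ∀ a b : ℕ, a < b → Disjoint (Set.Ioo (rr a) (rr (a + 1))) (Set.Ioo (rr b) (rr (b + 1))) := by
      intro a b hab
      rw [Set.disjoint_left]
      intro t h1 h2
      have h3 : rr (a + 1) ≤ rr b := rr_mono hab
      linarith [h1.2, h2.1]
    intro a b hab
    rcases lt_or_gt_of_ne hab with hlt | hgt
    · exact key a b hlt
    · exact (key b a hgt).symm
  have hsub : (⋃ k : ℕ, Set.Ioo (rr k) (rr (k + 1))) ⊆ Set.Ioo 0 1 := by
    intro t ht
    rw [Set.mem_iUnion] at ht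
    obtain ⟨k, hk⟩ := ht
    exact ⟨lt_of_le_of_lt (rr_nonneg k) hk.1, hk.2.trans (rr_lt_one _)⟩
  set c : ℝ := (1 / 2 : ℝ) ^ |α| / 2 with hc
  have hc0 : 0 < c := by positivity
  have hpiece : ∀ k : ℕ, ENNReal.ofReal c * ENNReal.ofReal (((1 / 2 : ℝ) ^ (α + 1)) ^ k * Real.exp (p * Nn ρ A k))
      ≤ ∫⁻ r in Set.Ioo (rr k) (rr (k + 1)), ENNReal.ofReal (G r) := by
    intro k
    set m : ℝ := (1 / 2 : ℝ) ^ |α| * ((1 / 2 : ℝ) ^ k) ^ α * Real.exp (p * Nn ρ A k) with hm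
    have hm0 : 0 ≤ m := by positivity
    have h1 : ∫⁻ _r in Set.Ioo (rr k) (rr (k + 1)), ENNReal.ofReal m
        ≤ ∫⁻ r in Set.Ioo (rr k) (rr (k + 1)), ENNReal.ofReal (G r) := by
      apply setLIntegral_mono' measurableSet_Ioo
      intro r hr
      apply ENNReal.ofReal_le_ofReal
      rw [hm, hG]
      have e1 : (1 / 2 : ℝ) ^ |α| * ((1 / 2 : ℝ) ^ k) ^ α ≤ (1 - r) ^ α := by
        apply rpow_ge
        · have := hr.2
          unfold rr at this
          linarith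
        · have := hr.1
          unfold rr at this
          linarith
      have e2 : Real.exp (p * Nn ρ A k) ≤
          Real.exp (p * ∫ t in (0 : ℝ)..r, (Nat.card {j : ℕ // ρ j ≤ t} : ℝ) / t) := by
        apply Real.exp_le_exp.mpr
        apply mul_le_mul_of_nonneg_left _ hp.le
        exact Nn_le_integral h k hr.1.le hr.2.le
      have e3 : 0 ≤ (1 - r) ^ α := le_trans (by positivity) e1
      exact mul_le_mul e1 e2 (Real.exp_pos _).le e3
    refine le_trans (le_of_eq ?_) h1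
    rw [setLIntegral_const, Real.volume_Ioo, ← ENNReal.ofReal_mul hc0.le, ← ENNReal.ofReal_mul hm0]
    congr 1
    have hrr : rr (k + 1) - rr k = (1 / 2) ^ k / 2 := by
      unfold rr
      rw [half_succ]; ring
    rw [hrr, hm, hc, ← half_pow_rpow]
    ring
  have htot : ENNReal.ofReal c * ∑' k : ℕ, ENNReal.ofReal (((1 / 2 : ℝ) ^ (α + 1)) ^ k * Real.exp (p * Nn ρ A k))
      ≤ ∫⁻ r in Set.Ioo 0 1, ENNReal.ofReal (G r) := by
    rw [← ENNReal.tsum_mul_left]
    calc ∑' k : ℕ, ENNReal.ofReal c * ENNReal.ofReal (((1 / 2 : ℝ) ^ (α + 1)) ^ k * Real.exp (p * Nn ρ A k))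
        ≤ ∑' k : ℕ, ∫⁻ r in Set.Ioo (rr k) (rr (k + 1)), ENNReal.ofReal (G r) := ENNReal.tsum_le_tsum hpiece
      _ = ∫⁻ r in (⋃ k : ℕ, Set.Ioo (rr k) (rr (k + 1))), ENNReal.ofReal (G r) :=
          (lintegral_iUnion (fun _ => measurableSet_Ioo) hdisj _).symm
      _ ≤ _ := lintegral_mono_set hsub
  intro htop
  rw [htop, ENNReal.mul_top (by rw [Ne, ENNReal.ofReal_eq_zero]; linarith)] at htot
  exact hfin (top_le_iff.mp htot)

theorem rr_cover {r : ℝ} (h0 : 0 ≤ r) (h1 : r < 1) : ∃ k : ℕ, rr k ≤ r ∧ r < rr (k + 1) := by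
  obtain ⟨k, hk⟩ := exists_pow_lt_of_lt_one (sub_pos.mpr h1) (by norm_num : (1 / 2 : ℝ) < 1)
  have hex : ∃ k : ℕ, r < rr (k + 1) := by
    refine ⟨k, ?_⟩
    have h2 := rr_lt_succ k
    have h3 : r ≤ rr k := by unfold rr; linarith
    linarith
  obtain ⟨a, ha1, ha2⟩ := WellFounded.has_min (wellFounded_lt (α := ℕ)) {k | r < rr (k + 1)} hex
  refine ⟨a, ?_, ha1⟩
  rcases Nat.eq_zero_or_pos a with rfl | hpos
  · have : rr 0 = 0 := by unfold rr; simp
    rw [this]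
    exact h0
  · obtain ⟨b, rfl⟩ : ∃ b, a = b + 1 := ⟨a - 1, by omega⟩
    by_contra hcon
    push Not at hcon
    exact ha2 b hcon (Nat.lt_succ_self b)

/-- The integral in polar coordinates. -/
theorem polar_fn {ρ : ℕ → ℝ} {A : ℕ → ℕ} {p α : ℝ}
    (hsum : ∑' k : ℕ, ENNReal.ofReal (((1 / 2 : ℝ) ^ (α + 1)) ^ k * Real.exp (p * Nn ρ A k)) ≠ ∞)
    {f : ℂ → ℂ}
    (hbd : ∀ k : ℕ, 1 ≤ k → ∀ z : ℂ, ‖z‖ ≤ rr k → ENNReal.ofReal (‖f z‖ ^ p) ≤ BB ρ A p k) :
    ∫⁻ θ in Set.Ioo (0 : ℝ) (2 * Real.pi), ∫⁻ r in Set.Ioo (0 : ℝ) 1,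
      ENNReal.ofReal ((1 - r ^ 2) ^ α * ‖f (r * Complex.exp (θ * Complex.I))‖ ^ p * r) < ∞ := by
  have hx : (0 : ℝ) < (1 / 2 : ℝ) ^ (α + 1) := by positivity
  set c : ℝ := (2 : ℝ) ^ |α| with hc
  have hc0 : 0 ≤ c := by positivity
  have hinner : ∀ θ : ℝ, ∫⁻ r in Set.Ioo (0 : ℝ) 1,
      ENNReal.ofReal ((1 - r ^ 2) ^ α * ‖f (r * Complex.exp (θ * Complex.I))‖ ^ p * r)
      ≤ ENNReal.ofReal c * ∑' k : ℕ, ENNReal.ofReal (((1 / 2 : ℝ) ^ (α + 1)) ^ k) * BB ρ A p (k + 1) := by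
    intro θ
    set G : ℝ → ℝ≥0∞ := fun r =>
      ENNReal.ofReal ((1 - r ^ 2) ^ α * ‖f (r * Complex.exp (θ * Complex.I))‖ ^ p * r) with hG
    have hcover : Set.Ioo (0 : ℝ) 1 ⊆ ⋃ k : ℕ, Set.Ico (rr k) (rr (k + 1)) := by
      intro r hr
      obtain ⟨k, hk1, hk2⟩ := rr_cover hr.1.le hr.2
      exact Set.mem_iUnion.mpr ⟨k, hk1, hk2⟩
    have hpiece : ∀ k : ℕ, ∫⁻ r in Set.Ico (rr k) (rr (k + 1)), G r
        ≤ ENNReal.ofReal c * (ENNReal.ofReal (((1 / 2 : ℝ) ^ (α + 1)) ^ k) * BB ρ A p (k + 1)) := by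
      intro k
      have h1 : ∫⁻ r in Set.Ico (rr k) (rr (k + 1)), G r
          ≤ ∫⁻ _r in Set.Ico (rr k) (rr (k + 1)),
            ENNReal.ofReal ((2 : ℝ) ^ |α| * ((1 / 2 : ℝ) ^ k) ^ α) * BB ρ A p (k + 1) := by
        apply setLIntegral_mono' measurableSet_Ico
        intro r hr
        have hr0 : 0 ≤ r := (rr_nonneg k).trans hr.1
        have hr1 : r < 1 := hr.2.trans (rr_lt_one _)
        have hnn : 0 ≤ (1 - r ^ 2) ^ α := by
          apply Real.rpow_nonneg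
          nlinarith
        have hnorm : ‖(r : ℂ) * Complex.exp (θ * Complex.I)‖ = r := by
          rw [norm_mul, Complex.norm_exp_ofReal_mul_I, mul_one, Complex.norm_real,
            Real.norm_of_nonneg hr0]
        rw [hG]
        simp only
        have h2 : (1 - r ^ 2) ^ α * ‖f (r * Complex.exp (θ * Complex.I))‖ ^ p * r
            ≤ (1 - r ^ 2) ^ α * ‖f (r * Complex.exp (θ * Complex.I))‖ ^ p := by
          apply mul_le_of_le_one_right _ hr1.le
          positivity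
        refine (ENNReal.ofReal_le_ofReal h2).trans ?_
        rw [ENNReal.ofReal_mul hnn]
        apply mul_le_mul'
        · exact ENNReal.ofReal_le_ofReal (weight_le hr0 hr.1 hr.2.le)
        · exact hbd (k + 1) (by omega) _ (by rw [hnorm]; exact hr.2.le)
      refine h1.trans ?_
      rw [setLIntegral_const, Real.volume_Ico]
      have hrr : rr (k + 1) - rr k = (1 / 2) ^ k / 2 := by
        unfold rr
        rw [half_succ]; ring
      have hle : ENNReal.ofReal (rr (k + 1) - rr k) ≤ ENNReal.ofReal ((1 / 2 : ℝ) ^ k) := by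
        apply ENNReal.ofReal_le_ofReal
        rw [hrr]
        have := half_pos k
        linarith
      calc ENNReal.ofReal ((2 : ℝ) ^ |α| * ((1 / 2 : ℝ) ^ k) ^ α) * BB ρ A p (k + 1)
            * ENNReal.ofReal (rr (k + 1) - rr k)
          ≤ ENNReal.ofReal ((2 : ℝ) ^ |α| * ((1 / 2 : ℝ) ^ k) ^ α) * BB ρ A p (k + 1)
            * ENNReal.ofReal ((1 / 2 : ℝ) ^ k) := by gcongr
        _ = ENNReal.ofReal ((2 : ℝ) ^ |α| * ((1 / 2 : ℝ) ^ k) ^ α) * ENNReal.ofReal ((1 / 2 : ℝ) ^ k)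
            * BB ρ A p (k + 1) := by ring
        _ = ENNReal.ofReal c * ENNReal.ofReal (((1 / 2 : ℝ) ^ (α + 1)) ^ k) * BB ρ A p (k + 1) := by
            rw [← ENNReal.ofReal_mul (by positivity), ← ENNReal.ofReal_mul hc0]
            congr 2
            rw [← half_pow_rpow, hc]
            ring
        _ = _ := by rw [mul_assoc]
    calc ∫⁻ r in Set.Ioo (0 : ℝ) 1, G r ≤ ∫⁻ r in ⋃ k : ℕ, Set.Ico (rr k) (rr (k + 1)), G r :=
          lintegral_mono_set hcover
      _ ≤ ∑' k : ℕ, ∫⁻ r in Set.Ico (rr k) (rr (k + 1)), G r := lintegral_iUnion_le _ _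
      _ ≤ ∑' k : ℕ, ENNReal.ofReal c * (ENNReal.ofReal (((1 / 2 : ℝ) ^ (α + 1)) ^ k) * BB ρ A p (k + 1)) :=
          ENNReal.tsum_le_tsum hpiece
      _ = _ := ENNReal.tsum_mul_left
  have hfin := tsum_BB_lt_top hx hsum
  have hshift : ∑' k : ℕ, ENNReal.ofReal (((1 / 2 : ℝ) ^ (α + 1)) ^ k) * BB ρ A p (k + 1) ≠ ∞ := by
    set x : ℝ := (1 / 2 : ℝ) ^ (α + 1) with hxdef
    have h1 : ∀ k : ℕ, ENNReal.ofReal (x ^ k) * BB ρ A p (k + 1)
        = ENNReal.ofReal (x⁻¹) * (ENNReal.ofReal (x ^ (k + 1)) * BB ρ A p (k + 1)) := by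
      intro k
      rw [← mul_assoc, ← ENNReal.ofReal_mul (by positivity)]
      congr 2
      rw [pow_succ]
      field_simp
    simp_rw [h1]
    rw [ENNReal.tsum_mul_left]
    apply ENNReal.mul_ne_top ENNReal.ofReal_ne_top
    refine ne_top_of_le_ne_top hfin ?_
    exact ENNReal.tsum_comp_le_tsum_of_injective (add_left_injective 1)
      (fun k => ENNReal.ofReal (x ^ k) * BB ρ A p k)
  calc ∫⁻ θ in Set.Ioo (0 : ℝ) (2 * Real.pi), ∫⁻ r in Set.Ioo (0 : ℝ) 1,
      ENNReal.ofReal ((1 - r ^ 2) ^ α * ‖f (r * Complex.exp (θ * Complex.I))‖ ^ p * r)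
      ≤ ∫⁻ _θ in Set.Ioo (0 : ℝ) (2 * Real.pi),
        ENNReal.ofReal c * ∑' k : ℕ, ENNReal.ofReal (((1 / 2 : ℝ) ^ (α + 1)) ^ k) * BB ρ A p (k + 1) :=
        lintegral_mono fun θ => hinner θ
    _ < ∞ := by
        rw [setLIntegral_const, Real.volume_Ioo]
        exact ENNReal.mul_lt_top (ENNReal.mul_lt_top ENNReal.ofReal_lt_top hshift.lt_top)
          ENNReal.ofReal_lt_top

end Pool.Agent.Lib_helper6.Ins.F69
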