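import Mathlib

/-!
# Models of true arithmetic with universe `ω`: definitions
-/

set_option autoImplicit false
open FirstOrder FirstOrder.Language

namespace Pool.Agent.Lib_helper6.NM

/-- The function symbols `0`, `1`, `+`, `·` of the language of arithmetic. -/
inductive Fn : ℕ → Type
  | zero : Fn 0
  | one : Fn 0
  | add : Fn 2
  | mul : Fn 2

/-- The relation symbol `<` of the language of arithmetic. -/
inductive Rl : ℕ → Type
  | lt : Rl 2

/-- The language of arithmetic `{0, 1, +, ·, <}`. -/
def LA : Language := ⟨Fn, Rl⟩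

/-- The interpretation of the function symbols in the standard model. -/
def stdFun : {n : ℕ} → Fn n → (Fin n → ℕ) → ℕ
  | _, .zero, _ => 0
  | _, .one, _ => 1
  | _, .add, x => x 0 + x 1
  | _, .mul, x => x 0 * x 1

/-- The interpretation of `<` in the standard model. -/
def stdRel : {n : ℕ} → Rl n → (Fin n → ℕ) → Prop
  | _, .lt, x => x 0 < x 1

/-- The standard model `(ℕ, 0, 1, +, ·, <)`. -/
@[instance_reducible] def std : LA.Structure ℕ := ⟨stdFun, stdRel⟩

/-- True arithmetic: the set of all sentences true in the standard model. -/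
def TA : LA.Theory := @Language.completeTheory LA ℕ std

/-- The structure `𝒜` with universe `ω` is a model of true arithmetic. -/
def ModelsTA (𝒜 : LA.Structure ℕ) : Prop := @Theory.Model LA ℕ 𝒜 TA

/-- `𝒜` is not isomorphic to the standard model. -/
def Nonstandard (𝒜 : LA.Structure ℕ) : Prop := IsEmpty (@Language.Equiv LA ℕ ℕ 𝒜 std)

/-- Closed terms of the language of arithmetic with a name for each element of `ω`. -/
inductive CTerm : Type
  | elt (a : ℕ) : CTerm
  | zero : CTerm
  | one : CTerm
  | add (s t : CTerm) : CTerm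
  | mul (s t : CTerm) : CTerm

/-- The value of a closed term in `𝒜`. -/
def CTerm.val (𝒜 : LA.Structure ℕ) : CTerm → ℕ
  | .elt a => a
  | .zero => 𝒜.funMap Fn.zero ![]
  | .one => 𝒜.funMap Fn.one ![]
  | .add s t => 𝒜.funMap Fn.add ![s.val 𝒜, t.val 𝒜]
  | .mul s t => 𝒜.funMap Fn.mul ![s.val 𝒜, t.val 𝒜]

/-- The code of a closed term. -/
def CTerm.code : CTerm → ℕ
  | .elt a => Nat.pair 0 a
  | .zero => Nat.pair 1 0
  | .one => Nat.pair 2 0
  | .add s t => Nat.pair 3 (Nat.pair s.code t.code)
  | .mul s t => Nat.pair 4 (Nat.pair s.code t.code)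

/-- The atomic diagram of `𝒜`: the set of the codes of all atomic sentences `s = t` and `s < t`
(`s`, `t` closed terms with names for the elements of `ω`) which are true in `𝒜`. -/
def atomicDiagram (𝒜 : LA.Structure ℕ) : Set ℕ :=
  {m | ∃ s t : CTerm,
    (m = Nat.pair 0 (Nat.pair s.code t.code) ∧ s.val 𝒜 = t.val 𝒜) ∨
    (m = Nat.pair 1 (Nat.pair s.code t.code) ∧ 𝒜.RelMap Rl.lt ![s.val 𝒜, t.val 𝒜])}

open Classical in
/-- The characteristic function of a set of natural numbers. -/
noncomputable def chi (X : Set ℕ) : ℕ →. ℕ := fun n => Part.some (if n ∈ X then 1 else 0)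

/-- `X ≤_T Y` for sets of natural numbers. -/
def TRed (X Y : Set ℕ) : Prop := TuringReducible (chi X) (chi Y)

/-- `S` is arithmetical: it is defined by a formula of the language of arithmetic, without
parameters, in the standard model. -/
def Arithmetical (S : Set ℕ) : Prop :=
  ∃ φ : LA.Formula (Fin 1), ∀ n : ℕ, n ∈ S ↔ @Formula.Realize LA ℕ std (Fin 1) φ (fun _ => n)

/-- The degree of `X` is an upper bound for the arithmetical degrees. -/
def UpperBound (X : Set ℕ) : Prop := ∀ S : Set ℕ, Arithmetical S → TRed S X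

end Pool.Agent.Lib_helper6.NM
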