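import Pool.Agent.Lib_helper6.TA14
import Pool.Agent.Lib_helper6.TA15

set_option autoImplicit false
open FirstOrder FirstOrder.Language Encodable

namespace Pool.Agent.Lib_helper6.TA

attribute [local instance] stdS

theorem definable_of_ar {S : Set ℕ} (h : Ar (fun v => v 0 ∈ S)) :
    (∅ : Set ℕ).Definable LR {v : Fin 1 → ℕ | v 0 ∈ S} := by
  obtain ⟨φ, hφ⟩ := h.formula
  rw [Set.empty_definable_iff]
  refine ⟨φ.relabel (fun _ => 0), ?_⟩
  ext v
  have h1 : (φ.relabel (fun _ => (0 : Fin 1))).Realize v ↔ v 0 ∈ S := by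
    rw [Formula.realize_relabel, hφ]
    rfl
  exact h1.symm

open Classical in
/-- the main theorem: below the diagram there is a strictly smaller degree above the
arithmetical sets -/
theorem mainB (hPT : PathTuring) {M : Type} [A : LR.Structure M] {p q : M → M → M}
    (hA : IsGr A p q) (hM : LR.ElementarilyEquivalent M ℕ) (hE : IsEmpty (LR.Equiv M ℕ))
    (e : M ≃ ℕ) (D : ℕ → ℕ)
    (hD : D = (fun m : ℕ => Nat.pair (e (p (e.symm m.unpair.1) (e.symm m.unpair.2)))
      (e (q (e.symm m.unpair.1) (e.symm m.unpair.2))))) :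
    ∃ β : ℕ → Bool, TuringReducible (PFun.lift (fun n => bn (β n))) (PFun.lift D) ∧
      (∀ S : Set ℕ, Ar (fun v => v 0 ∈ S) →
        TuringReducible (PFun.lift (fun m : ℕ => if m ∈ S then 1 else 0))
          (PFun.lift (fun n => bn (β n)))) ∧
      ¬ TuringReducible (PFun.lift D) (PFun.lift (fun n => bn (β n))) := by
  haveI : Nonempty M := ⟨e.symm 0⟩
  obtain ⟨zM, oM, μ, w₁, w₂, I, J, TB, hI0, hμ, hstep, hbad, hcol, hname⟩ := M_facts hA hM hE
  -- the inputs
  set a : ℕ → M := fun t =>
    if p (p (e.symm t.unpair.1) (e.symm t.unpair.2)) oM = μ then e.symm t.unpair.1 else zM with ha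
  have haμ : ∀ t, ∃ y, p (p (a t) y) oM = μ := by
    intro t
    simp only [ha]
    split
    · rename_i h; exact ⟨_, h⟩
    · exact hμ
  obtain ⟨u, ε, c, hu0, hc0, hI, hc, hu, hG⟩ := exists_path I zM (nx p q oM) a
    (fun c u a ε => ((∃ h, w₁ = q h (md p q oM w₂ (ix p q u a))) ↔ ε = false) ∧
        ((∃ h, w₁ = p (q h (md p q oM w₂ (ix p q u a))) oM) ↔ ε = true) ∧
        J (ε :: c) (nx p q oM u a ε) a ∧
        ∀ s b, J s u b → J s (nx p q oM u a ε) b) hI0
    (fun c u t h => by
      obtain ⟨ε, h1, h2, h3, h4, h5⟩ := hstep c u (a t) h (haμ t)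
      exact ⟨ε, ⟨h1, h2, h4, h5⟩, h3⟩)
  -- transported operations
  set P : ℕ → ℕ → ℕ := fun x y => e (p (e.symm x) (e.symm y)) with hP
  set Q : ℕ → ℕ → ℕ := fun x y => e (q (e.symm x) (e.symm y)) with hQ
  have hPe : ∀ x y, P (e x) (e y) = e (p x y) := fun x y => by simp [hP]
  have hQe : ∀ x y, Q (e x) (e y) = e (q x y) := fun x y => by simp [hQ]
  have hpath : TuringReducible (PFun.lift (fun t => if ε t = true then 1 else 0)) (PFun.lift D) := by
    refine hPT D P Q (fun m => by rw [hD]) (e zM) (e oM) (e μ) (e w₁) (e w₂) (fun t => e (u t)) ε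
      (fun t => e (a t)) (fun t => e (ix p q (u t) (a t)))
      (fun t => e (md p q oM w₂ (ix p q (u t) (a t)))) (by rw [hu0]) ?_ ?_ ?_ ?_ ?_ ?_
    · intro t
      simp only [ha, hP, Equiv.symm_apply_apply, EmbeddingLike.apply_eq_iff_eq]
      split
      · rename_i h; simp [h]
      · rename_i h; simp [h]
    · intro t
      simp only [hPe, hQe]; rfl
    · intro t
      simp only [hPe, hQe]; rfl
    · intro t
      simp only [hPe, hu, nx]
      split <;> rfl
    · intro t
      rw [← (hG t).1]
      constructor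
      · rintro ⟨h, hh⟩
        refine ⟨e.symm h, e.injective ?_⟩
        rw [hh, ← hQe]; simp
      · rintro ⟨h, hh⟩
        refine ⟨e h, ?_⟩
        rw [hQe, ← hh]
    · intro t
      rw [← (hG t).2.1]
      constructor
      · rintro ⟨h, hh⟩
        refine ⟨e.symm h, e.injective ?_⟩
        rw [hh, ← hPe, ← hQe]; simp
      · rintro ⟨h, hh⟩
        refine ⟨e h, ?_⟩
        rw [hQe, hPe, ← hh]
  have hE1 : TuringReducible (PFun.lift (fun n => bn (ε (2 * n)))) (PFun.lift D) :=
    TuringReducible.trans (red_comp (f := fun t => bn (ε t)) (g := fun n => 2 * n)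
      (Primrec.nat_mul.comp (Primrec.const 2) Primrec.id).to_comp) hpath
  have hC1 : TuringReducible (PFun.lift (fun n => bn (ε (2 * n + 1)))) (PFun.lift D) :=
    TuringReducible.trans (red_comp (f := fun t => bn (ε t)) (g := fun n => 2 * n + 1)
      (Primrec.succ.comp (Primrec.nat_mul.comp (Primrec.const 2) Primrec.id)).to_comp) hpath
  refine ⟨fun n => ε (2 * n + 1), hC1, ?_, ?_⟩
  · intro S hS
    obtain ⟨b, ⟨y, hy⟩, hb⟩ := hname S (definable_of_ar hS)
    set t := Nat.pair (e b) (e y) with ht
    have hat : a t = b := by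
      simp only [ha, ht, Nat.unpair_pair, Equiv.symm_apply_apply, hy, if_true]
    have hJ : ∀ T, t + 1 ≤ T → J (c (t + 1)) (u T) b := by
      intro T hT
      induction T, hT using Nat.le_induction with
      | base =>
        have := (hG t).2.2.1
        rw [← hu, ← hc, hat] at this
        exact this
      | succ T _ ih =>
        have := (hG T).2.2.2 _ _ ih
        rw [← hu] at this
        exact this
    have hS2 : (fun m : ℕ => if m ∈ S then 1 else 0) =
        (fun k => (fun n => bn (ε (2 * n + 1))) (Nat.pair (encode (c (t + 1))) k)) := by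
      funext k
      have h1 := hcol (c ((t + 1) + (2 * pos (c (t + 1)) k + 1 + 1)))
        (u ((t + 1) + (2 * pos (c (t + 1)) k + 1 + 1))) (c (t + 1)) b
        (hI _) (hJ _ (by omega)) k (ε (2 * pos (c (t + 1)) k + 1))
        (c (2 * pos (c (t + 1)) k + 1)) (by
          rw [← hc]
          exact path_suffix hc (by omega)) (path_len hc0 hc _)
      rw [hb k] at h1
      show (if k ∈ S then 1 else 0) = bn (ε (2 * pos (c (t + 1)) k + 1))
      unfold bn
      by_cases hk : k ∈ S
      · rw [if_pos hk, if_pos (h1.1 hk)]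
      · rw [if_neg hk, if_neg (fun h => hk (h1.2 h))]
    rw [hS2]
    exact red_comp (f := fun n => bn (ε (2 * n + 1)))
      (g := fun k => Nat.pair (encode (c (t + 1))) k)
      (Primrec₂.natPair.comp (Primrec.const _) Primrec.id).to_comp
  · intro hDg
    exact path_not hc0 hc (fun t m => hbad _ _ (hI t) m) (hE1.trans hDg)

end Pool.Agent.Lib_helper6.TA
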