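import Mathlib
import Pool.Agent.Lib_helper6.Ins.TAm
import Pool.Agent.Lib_helper6.Ins.NMDefs

/-!
# Models of true arithmetic with universe `ω`: proofs
-/

set_option autoImplicit false
open FirstOrder FirstOrder.Language

namespace Pool.Agent.Lib_helper6.NM

/-! ### The relational reduct -/

open Lib_helper6.TA (LR IsGr stdS Ar bn)

section
variable {M : Type}

/-- addition -/
def pl [LA.Structure M] (x y : M) : M := Structure.funMap (L := LA) Fn.add ![x, y]
/-- multiplication -/
def ml [LA.Structure M] (x y : M) : M := Structure.funMap (L := LA) Fn.mul ![x, y]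
/-- zero -/
def ze (M : Type) [LA.Structure M] : M := Structure.funMap (L := LA) Fn.zero ![]
/-- one -/
def on (M : Type) [LA.Structure M] : M := Structure.funMap (L := LA) Fn.one ![]
/-- less than -/
def ls [LA.Structure M] (x y : M) : Prop := Structure.RelMap (L := LA) Rl.lt ![x, y]

/-- the structure of the graphs of addition and multiplication -/
@[instance_reducible] def gr (M : Type) [LA.Structure M] : LR.Structure M where
  funMap := fun f => Empty.elim f
  RelMap := fun {n} r xs => ∃ i j k : Fin n, i.val = 0 ∧ j.val = 1 ∧ k.val = 2 ∧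
    ((Fin.val r = 0 ∧ pl (xs i) (xs j) = xs k) ∨ (Fin.val r = 1 ∧ ml (xs i) (xs j) = xs k))

theorem isGr_gr (M : Type) [LA.Structure M] : IsGr (gr M) (pl : M → M → M) ml :=
  fun _ _ _ => Iff.rfl

/-- terms -/
def trT {α : Type} : LR.Term α → LA.Term α
  | .var x => .var x
  | .func f _ => Empty.elim f

/-- formulas -/
def trF {α : Type} : {n : ℕ} → LR.BoundedFormula α n → LA.BoundedFormula α n
  | _, .falsum => .falsum
  | _, .equal t s => .equal (trT t) (trT s)
  | n, .rel (l := l) R ts =>
      if h : l = 3 then
        if Fin.val R = 0 then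
          .equal (.func (l := 2) Fn.add ![trT (ts (Fin.cast h.symm 0)), trT (ts (Fin.cast h.symm 1))])
            (trT (ts (Fin.cast h.symm 2)))
        else
          .equal (.func (l := 2) Fn.mul ![trT (ts (Fin.cast h.symm 0)), trT (ts (Fin.cast h.symm 1))])
            (trT (ts (Fin.cast h.symm 2)))
      else .falsum
  | _, .imp f g => .imp (trF f) (trF g)
  | _, .all f => .all (trF f)

theorem realize_trT {α : Type} [A : LA.Structure M] (t : LR.Term α) (v : α → M) :
    (trT t).realize v = @Term.realize LR M (gr M) α v t := by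
  cases t with
  | var x => rfl
  | func f _ => exact Empty.elim f

theorem realize_trF {α : Type} [A : LA.Structure M] {n : ℕ} (φ : LR.BoundedFormula α n)
    (v : α → M) : ∀ xs : Fin n → M,
    (trF φ).Realize v xs ↔ @BoundedFormula.Realize LR M (gr M) α n φ v xs := by
  induction φ with
  | falsum => intro xs; exact Iff.rfl
  | equal t s =>
    intro xs
    unfold trF
    unfold BoundedFormula.Realize
    rw [realize_trT, realize_trT]
  | @rel n l R ts =>
    intro xs
    unfold trF
    by_cases h : l = 3
    · subst h
      rw [dif_pos rfl]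
      have hR : R.val < 2 := by
        have h1 := R.isLt
        have h2 : (if (3 : ℕ) = 3 then 2 else 0) = 2 := by simp
        omega
      have key : @BoundedFormula.Realize LR M (gr M) α n (.rel R ts) v xs ↔
          ((Fin.val R = 0 ∧ pl (@Term.realize LR M (gr M) _ (Sum.elim v xs) (ts 0))
            (@Term.realize LR M (gr M) _ (Sum.elim v xs) (ts 1))
            = @Term.realize LR M (gr M) _ (Sum.elim v xs) (ts 2)) ∨
          (Fin.val R = 1 ∧ ml (@Term.realize LR M (gr M) _ (Sum.elim v xs) (ts 0))
            (@Term.realize LR M (gr M) _ (Sum.elim v xs) (ts 1))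
            = @Term.realize LR M (gr M) _ (Sum.elim v xs) (ts 2))) := by
        constructor
        · rintro ⟨i, j, k, hi, hj, hk, hh⟩
          have hi' : i = 0 := Fin.ext hi
          have hj' : j = 1 := Fin.ext hj
          have hk' : k = 2 := Fin.ext hk
          subst hi' hj' hk'
          exact hh
        · intro hh
          exact ⟨0, 1, 2, rfl, rfl, rfl, hh⟩
      rw [key]
      have hpl : ∀ a b : LA.Term (α ⊕ Fin n),
          (Term.func (l := 2) (L := LA) Fn.add ![a, b]).realize (Sum.elim v xs)
            = pl (a.realize (Sum.elim v xs)) (b.realize (Sum.elim v xs)) := by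
        intro a b
        rw [Term.realize_func]
        unfold pl
        congr 1
        funext i
        fin_cases i <;> rfl
      have hml : ∀ a b : LA.Term (α ⊕ Fin n),
          (Term.func (l := 2) (L := LA) Fn.mul ![a, b]).realize (Sum.elim v xs)
            = ml (a.realize (Sum.elim v xs)) (b.realize (Sum.elim v xs)) := by
        intro a b
        rw [Term.realize_func]
        unfold ml
        congr 1
        funext i
        fin_cases i <;> rfl
      by_cases h0 : Fin.val R = 0
      · rw [if_pos h0]
        unfold BoundedFormula.Realize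
        rw [hpl, realize_trT, realize_trT, realize_trT]
        constructor
        · intro hh; exact Or.inl ⟨h0, hh⟩
        · rintro (hh | hh)
          · exact hh.2
          · omega
      · rw [if_neg h0]
        unfold BoundedFormula.Realize
        rw [hml, realize_trT, realize_trT, realize_trT]
        constructor
        · intro hh; exact Or.inr ⟨by omega, hh⟩
        · rintro (hh | hh)
          · omega
          · exact hh.2
    · have hR := R.isLt
      have h2 : (if l = 3 then 2 else 0) = 0 := if_neg h
      omega
  | imp f g ihf ihg =>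
    intro xs
    unfold trF
    unfold BoundedFormula.Realize
    rw [ihf, ihg]
  | all f ih =>
    intro xs
    unfold trF
    unfold BoundedFormula.Realize
    exact forall_congr' fun x => ih _

attribute [local instance] std

theorem gr_std : gr ℕ = stdS := rfl

theorem el_equiv {M : Type} [A : LA.Structure M] (h : LA.ElementarilyEquivalent M ℕ) :
    @ElementarilyEquivalent LR M ℕ (gr M) stdS := by
  rw [elementarilyEquivalent_iff] at h
  refine (@elementarilyEquivalent_iff LR M ℕ (gr M) stdS).2 fun φ => ?_
  have h1 := h (trF φ)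
  unfold Sentence.Realize Formula.Realize at h1
  rw [realize_trF, realize_trF] at h1
  exact h1

/-! ### Facts of arithmetic in the model -/

theorem fact {M : Type} [A : LA.Structure M] (h : LA.ElementarilyEquivalent M ℕ)
    (φ : LA.Sentence) (h1 : ℕ ⊨ φ) : M ⊨ φ := (elementarilyEquivalent_iff.1 h φ).2 h1

/-- sum of terms -/
def tAdd {α : Type} (a b : LA.Term α) : LA.Term α := .func (l := 2) Fn.add ![a, b]
/-- product of terms -/
def tMul {α : Type} (a b : LA.Term α) : LA.Term α := .func (l := 2) Fn.mul ![a, b]
/-- zero term -/
def tZero {α : Type} : LA.Term α := .func (l := 0) Fn.zero ![]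
/-- one term -/
def tOne {α : Type} : LA.Term α := .func (l := 0) Fn.one ![]
/-- less -/
def fLt {α : Type} {n : ℕ} (a b : LA.Term (α ⊕ Fin n)) : LA.BoundedFormula α n :=
  .rel (l := 2) Rl.lt ![a, b]

section
variable {α : Type} {n : ℕ} {M : Type} [A : LA.Structure M]

theorem realize_tAdd (a b : LA.Term α) (v : α → M) :
    (tAdd a b).realize v = pl (a.realize v) (b.realize v) := by
  unfold tAdd pl
  rw [Term.realize_func]
  congr 1
  funext i
  fin_cases i <;> rfl

theorem realize_tMul (a b : LA.Term α) (v : α → M) :
    (tMul a b).realize v = ml (a.realize v) (b.realize v) := by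
  unfold tMul ml
  rw [Term.realize_func]
  congr 1
  funext i
  fin_cases i <;> rfl

theorem realize_tZero (v : α → M) : (tZero : LA.Term α).realize v = ze M := by
  unfold tZero ze
  rw [Term.realize_func]
  congr 1
  funext i
  exact i.elim0

theorem realize_tOne (v : α → M) : (tOne : LA.Term α).realize v = on M := by
  unfold tOne on
  rw [Term.realize_func]
  congr 1
  funext i
  exact i.elim0

theorem realize_fLt (a b : LA.Term (α ⊕ Fin n)) (v : α → M) (xs : Fin n → M) :
    (fLt a b).Realize v xs ↔ ls (a.realize (Sum.elim v xs)) (b.realize (Sum.elim v xs)) := by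
  unfold fLt ls BoundedFormula.Realize
  have : (fun i : Fin 2 => ((![a, b] : Fin 2 → LA.Term (α ⊕ Fin n)) i).realize (Sum.elim v xs))
      = ![a.realize (Sum.elim v xs), b.realize (Sum.elim v xs)] := by
    funext i
    fin_cases i <;> rfl
  rw [this]

end

theorem pl_std (x y : ℕ) : (pl x y : ℕ) = x + y := rfl
theorem ml_std (x y : ℕ) : (ml x y : ℕ) = x * y := rfl
theorem ze_std : ze ℕ = 0 := rfl
theorem on_std : on ℕ = 1 := rfl
theorem ls_std (x y : ℕ) : ls x y ↔ x < y := Iff.rfl

theorem facts {M : Type} [A : LA.Structure M] (h : LA.ElementarilyEquivalent M ℕ) :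
    (∀ x : M, pl x (ze M) = x) ∧ (∀ x : M, ml x (on M) = x) ∧
      ∀ x y : M, ls x y ↔ ∃ z, z ≠ ze M ∧ pl x z = y := by
  refine ⟨?_, ?_, ?_⟩
  · have h1 := fact h (BoundedFormula.all (BoundedFormula.equal (tAdd (&0) tZero) (&0))) (by
      intro x
      show _ = _
      rw [realize_tAdd, realize_tZero]
      rfl)
    intro x
    have h2 := h1 x
    change _ = _ at h2
    rw [realize_tAdd, realize_tZero] at h2
    exact h2
  · have h1 := fact h (BoundedFormula.all (BoundedFormula.equal (tMul (&0) tOne) (&0))) (by
      intro x
      show _ = _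
      rw [realize_tMul, realize_tOne]
      exact mul_one x)
    intro x
    have h2 := h1 x
    change _ = _ at h2
    rw [realize_tMul, realize_tOne] at h2
    exact h2
  · have key : ∀ (N : Type) [LA.Structure N],
        N ⊨ (BoundedFormula.all (BoundedFormula.all (BoundedFormula.iff (fLt (&0) (&1))
          (BoundedFormula.ex ((BoundedFormula.equal (&2) tZero).not ⊓
            BoundedFormula.equal (tAdd (&0) (&2)) (&1))))) : LA.Sentence) ↔
        ∀ x y : N, ls x y ↔ ∃ z, z ≠ ze N ∧ pl x z = y := by
      intro N _
      unfold Sentence.Realize Formula.Realize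
      rw [BoundedFormula.realize_all]
      refine forall_congr' fun x => ?_
      rw [BoundedFormula.realize_all]
      refine forall_congr' fun y => ?_
      rw [BoundedFormula.realize_iff, realize_fLt, BoundedFormula.realize_ex]
      refine iff_congr Iff.rfl (exists_congr fun z => ?_)
      rw [BoundedFormula.realize_inf, BoundedFormula.realize_not]
      refine and_congr (not_congr ?_) ?_
      · show _ = _ ↔ _
        rw [realize_tZero]
        rfl
      · show _ = _ ↔ _
        rw [realize_tAdd]
        rfl
    rw [← key M]
    apply fact h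
    rw [key ℕ]
    intro x y
    rw [ls_std]
    constructor
    · intro hxy
      exact ⟨y - x, by rw [ze_std]; omega, by rw [pl_std]; omega⟩
    · rintro ⟨z, hz, hz'⟩
      rw [ze_std] at hz
      rw [pl_std] at hz'
      omega

/-! ### Isomorphisms -/

theorem iso_lift {M : Type} [A : LA.Structure M] (h : LA.ElementarilyEquivalent M ℕ)
    (E : @Language.Equiv LR M ℕ (gr M) stdS) : Nonempty (LA.Equiv M ℕ) := by
  obtain ⟨f0, f1, f2⟩ := facts h
  let i1 : LR.Structure M := gr M
  let i2 : LR.Structure ℕ := stdS
  obtain ⟨φ, hrel⟩ : ∃ φ : M ≃ ℕ, ∀ (r : LR.Relations 3) (x : Fin 3 → M),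
      stdS.RelMap r (φ ∘ x) ↔ (gr M).RelMap r x := ⟨E.toEquiv, fun r x => E.map_rel' r x⟩
  have hadd : ∀ x y : M, φ (pl x y) = φ x + φ y := by
    intro x y
    have h1 := hrel Lib_helper6.TA.rAdd ![x, y, pl x y]
    have h2 := Lib_helper6.TA.relMap_add (isGr_gr M) ![x, y, pl x y]
    have h3 := Lib_helper6.TA.relMap_add Lib_helper6.TA.isGr_std (φ ∘ ![x, y, pl x y])
    exact (h3.1 (h1.2 (h2.2 rfl))).symm
  have hmul : ∀ x y : M, φ (ml x y) = φ x * φ y := by
    intro x y
    have h1 := hrel Lib_helper6.TA.rMul ![x, y, ml x y]
    have h2 := Lib_helper6.TA.relMap_mul (isGr_gr M) ![x, y, ml x y]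
    have h3 := Lib_helper6.TA.relMap_mul Lib_helper6.TA.isGr_std (φ ∘ ![x, y, ml x y])
    exact (h3.1 (h1.2 (h2.2 rfl))).symm
  have hze : φ (ze M) = 0 := by
    have h1 := hadd (ze M) (ze M)
    rw [f0] at h1
    omega
  have hon : φ (on M) = 1 := by
    have h1 := hmul (φ.symm 1) (on M)
    rw [f1, Equiv.apply_symm_apply] at h1
    omega
  have hls : ∀ x y : M, ls x y ↔ φ x < φ y := by
    intro x y
    rw [f2]
    constructor
    · rintro ⟨z, hz, hz'⟩
      rw [← hz', hadd]
      have : φ z ≠ 0 := by
        rw [← hze]
        exact fun h => hz (φ.injective h)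
      omega
    · intro hxy
      refine ⟨φ.symm (φ y - φ x), ?_, ?_⟩
      · intro h
        have h1 := congrArg φ h
        rw [Equiv.apply_symm_apply, hze] at h1
        omega
      · apply φ.injective
        rw [hadd, Equiv.apply_symm_apply]
        omega
  refine ⟨⟨φ, ?_, ?_⟩⟩
  · intro n f x
    cases f with
    | zero =>
      have : x = ![] := by funext i; exact i.elim0
      subst this
      exact hze
    | one =>
      have : x = ![] := by funext i; exact i.elim0
      subst this
      exact hon
    | add =>
      have : x = ![x 0, x 1] := by funext i; fin_cases i <;> rfl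
      rw [this]
      exact hadd (x 0) (x 1)
    | mul =>
      have : x = ![x 0, x 1] := by funext i; fin_cases i <;> rfl
      rw [this]
      exact hmul (x 0) (x 1)
  · intro n r x
    cases r with
    | lt =>
      have : x = ![x 0, x 1] := by funext i; fin_cases i <;> rfl
      rw [this]
      exact (hls (x 0) (x 1)).symm

/-! ### Arithmetical sets -/

/-- the assignment given by an environment -/
def asg (n : ℕ) (v : ℕ → ℕ) : Fin 1 ⊕ Fin n → ℕ :=
  Sum.elim (fun _ => v 0) (fun i => v (i.val + 1))

theorem asg_update {n k : ℕ} (hk : n < k) (v : ℕ → ℕ) (x : ℕ) :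
    asg n (Function.update v k x) = asg n v := by
  funext i
  rcases i with i | i
  · show Function.update v k x 0 = v 0
    rw [Function.update_of_ne (by omega)]
  · show Function.update v k x (i.val + 1) = v (i.val + 1)
    rw [Function.update_of_ne (by have := i.isLt; omega)]

theorem ar_term {n : ℕ} (t : LA.Term (Fin 1 ⊕ Fin n)) :
    ∀ k, n < k → Ar (fun v => v k = t.realize (asg n v)) := by
  induction t with
  | var x =>
    intro k _
    rcases x with i | i
    · exact Ar.eq k 0
    · exact Ar.eq k (i.val + 1)
  | @func l f ts ih =>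
    intro k hk
    cases f with
    | zero => exact (Ar.zero k).congr fun v => Iff.rfl
    | one => exact (Ar.one k).congr fun v => Iff.rfl
    | add =>
      have h1 := (((ih 0 (k + 1) (by omega)).and (ih 1 (k + 2) (by omega))).and
        (Ar.add (k + 1) (k + 2) k))
      refine ((h1.ex (k + 2)).ex (k + 1)).congr fun v => ?_
      constructor
      · rintro ⟨x, y, ⟨hx, hy⟩, hxy⟩
        rw [asg_update (by omega), asg_update (by omega), Function.update_of_ne (by omega),
          Function.update_self] at hx
        rw [asg_update (by omega), asg_update (by omega), Function.update_self] at hy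
        rw [Function.update_of_ne (by omega), Function.update_self, Function.update_self,
          Function.update_of_ne (by omega), Function.update_of_ne (by omega)] at hxy
        show v k = (ts 0).realize (asg n v) + (ts 1).realize (asg n v)
        rw [← hx, ← hy, hxy]
      · intro h
        refine ⟨(ts 0).realize (asg n v), (ts 1).realize (asg n v), ⟨?_, ?_⟩, ?_⟩
        · rw [asg_update (by omega), asg_update (by omega), Function.update_of_ne (by omega),
            Function.update_self]
        · rw [asg_update (by omega), asg_update (by omega), Function.update_self]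
        · rw [Function.update_of_ne (by omega), Function.update_self, Function.update_self,
            Function.update_of_ne (by omega), Function.update_of_ne (by omega)]
          exact h.symm
    | mul =>
      have h1 := (((ih 0 (k + 1) (by omega)).and (ih 1 (k + 2) (by omega))).and
        (Ar.mul (k + 1) (k + 2) k))
      refine ((h1.ex (k + 2)).ex (k + 1)).congr fun v => ?_
      constructor
      · rintro ⟨x, y, ⟨hx, hy⟩, hxy⟩
        rw [asg_update (by omega), asg_update (by omega), Function.update_of_ne (by omega),
          Function.update_self] at hx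
        rw [asg_update (by omega), asg_update (by omega), Function.update_self] at hy
        rw [Function.update_of_ne (by omega), Function.update_self, Function.update_self,
          Function.update_of_ne (by omega), Function.update_of_ne (by omega)] at hxy
        show v k = (ts 0).realize (asg n v) * (ts 1).realize (asg n v)
        rw [← hx, ← hy, hxy]
      · intro h
        refine ⟨(ts 0).realize (asg n v), (ts 1).realize (asg n v), ⟨?_, ?_⟩, ?_⟩
        · rw [asg_update (by omega), asg_update (by omega), Function.update_of_ne (by omega),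
            Function.update_self]
        · rw [asg_update (by omega), asg_update (by omega), Function.update_self]
        · rw [Function.update_of_ne (by omega), Function.update_self, Function.update_self,
            Function.update_of_ne (by omega), Function.update_of_ne (by omega)]
          exact h.symm

theorem ar_term2 {n : ℕ} {R : ℕ → ℕ → Prop} (hR : Ar (fun v => R (v 0) (v 1)))
    (t s : LA.Term (Fin 1 ⊕ Fin n)) :
    Ar (fun v => R (t.realize (asg n v)) (s.realize (asg n v))) := by
  have h1 := ((ar_term t (n + 1) (by omega)).and (ar_term s (n + 2) (by omega))).and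
    (Ar.sub2 hR (n + 1) (n + 2))
  refine ((h1.ex (n + 2)).ex (n + 1)).congr fun v => ?_
  constructor
  · rintro ⟨x, y, ⟨hx, hy⟩, hxy⟩
    rw [asg_update (by omega), asg_update (by omega), Function.update_of_ne (by omega),
      Function.update_self] at hx
    rw [asg_update (by omega), asg_update (by omega), Function.update_self] at hy
    rw [Function.update_of_ne (by omega), Function.update_self, Function.update_self] at hxy
    rw [← hx, ← hy]
    exact hxy
  · intro h
    refine ⟨t.realize (asg n v), s.realize (asg n v), ⟨?_, ?_⟩, ?_⟩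
    · rw [asg_update (by omega), asg_update (by omega), Function.update_of_ne (by omega),
        Function.update_self]
    · rw [asg_update (by omega), asg_update (by omega), Function.update_self]
    · rw [Function.update_of_ne (by omega), Function.update_self, Function.update_self]
      exact h

theorem ar_formula {n : ℕ} (φ : LA.BoundedFormula (Fin 1) n) :
    Ar (fun v => φ.Realize (fun _ => v 0) (fun i : Fin n => v (i.val + 1))) := by
  induction φ with
  | falsum => exact ((Ar.eq 0 0).not).congr fun v => ⟨fun h => h rfl, fun h => h.elim⟩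
  | equal t s => exact (ar_term2 (R := fun x y => x = y) (Ar.eq 0 1) t s).congr fun v => Iff.rfl
  | @rel n l r ts =>
    cases r with
    | lt =>
      exact (ar_term2 (R := fun x y => x < y) (Ar.lt 0 1) (ts 0) (ts 1)).congr fun v => Iff.rfl
  | imp f g ihf ihg => exact (ihf.imp ihg).congr fun v => Iff.rfl
  | @all n f ih =>
    refine (ih.all (n + 1)).congr fun v => ?_
    refine forall_congr' fun x => ?_
    have e1 : (fun _ : Fin 1 => Function.update v (n + 1) x 0) = fun _ => v 0 := by
      funext _
      rw [Function.update_of_ne (by omega)]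
    have e2 : (fun i : Fin (n + 1) => Function.update v (n + 1) x (i.val + 1))
        = Fin.snoc (α := fun _ => ℕ) (fun i : Fin n => v (i.val + 1)) x := by
      funext i
      refine Fin.lastCases ?_ (fun j => ?_) i
      · rw [Fin.snoc_last, Fin.val_last, Function.update_self]
      · rw [Fin.snoc_castSucc, Fin.val_castSucc, Function.update_of_ne]
        have := j.isLt
        omega
    rw [e1, e2]

theorem ar_of_arithmetical {S : Set ℕ} (h : Arithmetical S) : Ar (fun v => v 0 ∈ S) := by
  obtain ⟨φ, hφ⟩ := h
  refine (ar_formula φ).congr fun v => ?_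
  rw [hφ]
  unfold Formula.Realize
  exact iff_of_eq (congrArg _ (Subsingleton.elim _ _))

/-! ### The atomic diagram computes the operations -/

theorem CTerm.code_injective : Function.Injective CTerm.code := by
  intro s
  induction s with
  | elt a =>
    intro t h
    cases t with
    | elt b => simp only [CTerm.code, Nat.pair_eq_pair] at h; rw [h.2]
    | zero => simp only [CTerm.code, Nat.pair_eq_pair] at h; omega
    | one => simp only [CTerm.code, Nat.pair_eq_pair] at h; omega
    | add s t => simp only [CTerm.code, Nat.pair_eq_pair] at h; omega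
    | mul s t => simp only [CTerm.code, Nat.pair_eq_pair] at h; omega
  | zero =>
    intro t h
    cases t with
    | elt b => simp only [CTerm.code, Nat.pair_eq_pair] at h; omega
    | zero => rfl
    | one => simp only [CTerm.code, Nat.pair_eq_pair] at h; omega
    | add s t => simp only [CTerm.code, Nat.pair_eq_pair] at h; omega
    | mul s t => simp only [CTerm.code, Nat.pair_eq_pair] at h; omega
  | one =>
    intro t h
    cases t with
    | elt b => simp only [CTerm.code, Nat.pair_eq_pair] at h; omega
    | zero => simp only [CTerm.code, Nat.pair_eq_pair] at h; omega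
    | one => rfl
    | add s t => simp only [CTerm.code, Nat.pair_eq_pair] at h; omega
    | mul s t => simp only [CTerm.code, Nat.pair_eq_pair] at h; omega
  | add a b iha ihb =>
    intro t h
    cases t with
    | elt b => simp only [CTerm.code, Nat.pair_eq_pair] at h; omega
    | zero => simp only [CTerm.code, Nat.pair_eq_pair] at h; omega
    | one => simp only [CTerm.code, Nat.pair_eq_pair] at h; omega
    | add s t =>
      simp only [CTerm.code, Nat.pair_eq_pair] at h
      rw [iha h.2.1, ihb h.2.2]
    | mul s t => simp only [CTerm.code, Nat.pair_eq_pair] at h; omega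
  | mul a b iha ihb =>
    intro t h
    cases t with
    | elt b => simp only [CTerm.code, Nat.pair_eq_pair] at h; omega
    | zero => simp only [CTerm.code, Nat.pair_eq_pair] at h; omega
    | one => simp only [CTerm.code, Nat.pair_eq_pair] at h; omega
    | add s t => simp only [CTerm.code, Nat.pair_eq_pair] at h; omega
    | mul s t =>
      simp only [CTerm.code, Nat.pair_eq_pair] at h
      rw [iha h.2.1, ihb h.2.2]

theorem mem_diagram (𝒜 : LA.Structure ℕ) (s t : CTerm) :
    Nat.pair 0 (Nat.pair s.code t.code) ∈ atomicDiagram 𝒜 ↔ s.val 𝒜 = t.val 𝒜 := by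
  constructor
  · rintro ⟨s', t', h | h⟩
    · obtain ⟨h1, h2⟩ := h
      rw [Nat.pair_eq_pair, Nat.pair_eq_pair] at h1
      rw [CTerm.code_injective h1.2.1, CTerm.code_injective h1.2.2]
      exact h2
    · obtain ⟨h1, _⟩ := h
      rw [Nat.pair_eq_pair] at h1
      omega
  · intro h
    exact ⟨s, t, Or.inl ⟨rfl, h⟩⟩

open Lib_helper6.TA (TC)

theorem rfind_eq {g : ℕ → ℕ} {c : ℕ} (h1 : g c = 0) (h2 : ∀ m, m < c → g m ≠ 0) :
    Nat.rfind (fun n => (fun m => decide (m = 0)) <$> (Part.some (g n))) = Part.some c := by
  rw [Part.eq_some_iff, Nat.mem_rfind]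
  refine ⟨by simp [h1], fun {m} hm => ?_⟩
  have := h2 m hm
  simp [this]

/-- searching for the value of a function with decidable graph -/
theorem tc_search {O : Set (ℕ →. ℕ)} {g : ℕ → ℕ} {F : ℕ → ℕ} (hg : TC O g)
    (h : ∀ m c, g (Nat.pair m c) = 0 ↔ F m = c) : TC O F := by
  refine (Nat.RecursiveIn.rfind (f := PFun.lift g) hg).of_eq fun m => ?_
  exact rfind_eq (g := fun n => g (Nat.pair m n)) ((h m (F m)).2 rfl)
    (fun c hc h0 => by rw [h] at h0; omega)

open Classical in
theorem tc_diagram (𝒜 : LA.Structure ℕ) {q : ℕ → ℕ} (hq : Computable q) :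
    TC {chi (atomicDiagram 𝒜)} (fun n => if q n ∈ atomicDiagram 𝒜 then 0 else 1) := by
  have h1 : TC {chi (atomicDiagram 𝒜)} (fun n => if n ∈ atomicDiagram 𝒜 then 1 else 0) :=
    Nat.RecursiveIn.oracle _ (by rfl)
  have h2 := h1.comp (TC.of_comp (O := {chi (atomicDiagram 𝒜)}) hq)
  have h3 : Computable (fun n : ℕ => 1 - n) :=
    (Primrec.nat_sub.comp (Primrec.const 1) Primrec.id).to_comp
  have h4 := (TC.of_comp (O := {chi (atomicDiagram 𝒜)}) h3).comp h2
  have h5 : (fun n => if q n ∈ atomicDiagram 𝒜 then 0 else 1) =
      fun n => 1 - (if q n ∈ atomicDiagram 𝒜 then 1 else 0) := by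
    funext n
    split_ifs <;> rfl
  rw [h5]
  exact h4

theorem tc_fun (𝒜 : LA.Structure ℕ) {q F : ℕ → ℕ} (hq : Computable q)
    (h : ∀ m c, q (Nat.pair m c) ∈ atomicDiagram 𝒜 ↔ F m = c) :
    TC {chi (atomicDiagram 𝒜)} F := by
  classical
  refine tc_search (tc_diagram 𝒜 hq) fun m c => ?_
  rw [← h]
  by_cases h' : q (Nat.pair m c) ∈ atomicDiagram 𝒜
  · simp [h']
  · simp [h']

theorem operations_red (𝒜 : LA.Structure ℕ) :
    TuringReducible (PFun.lift (fun m : ℕ =>
      Nat.pair (𝒜.funMap Fn.add ![m.unpair.1, m.unpair.2])
        (𝒜.funMap Fn.mul ![m.unpair.1, m.unpair.2]))) (chi (atomicDiagram 𝒜)) := by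
  classical
  refine RecursiveIn.iff_nat.2 ?_
  have u1 : Primrec (fun n : ℕ => n.unpair.1) := Primrec.fst.comp Primrec.unpair
  have u2 : Primrec (fun n : ℕ => n.unpair.2) := Primrec.snd.comp Primrec.unpair
  have hP : TC {chi (atomicDiagram 𝒜)}
      (fun m => 𝒜.funMap Fn.add ![m.unpair.1, m.unpair.2]) := by
    have hq : Computable (fun s : ℕ => Nat.pair 0 (Nat.pair
        (CTerm.add (.elt s.unpair.1.unpair.1) (.elt s.unpair.1.unpair.2)).code
        (CTerm.elt s.unpair.2).code)) := by
      refine (Primrec₂.natPair.comp (Primrec.const 0) (Primrec₂.natPair.comp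
        (Primrec₂.natPair.comp (Primrec.const 3) (Primrec₂.natPair.comp
          (Primrec₂.natPair.comp (Primrec.const 0) (u1.comp u1))
          (Primrec₂.natPair.comp (Primrec.const 0) (u2.comp u1))))
        (Primrec₂.natPair.comp (Primrec.const 0) u2))).to_comp
    refine tc_fun 𝒜 hq fun m c => ?_
    rw [Nat.unpair_pair]
    exact mem_diagram 𝒜 _ _
  have hQ : TC {chi (atomicDiagram 𝒜)}
      (fun m => 𝒜.funMap Fn.mul ![m.unpair.1, m.unpair.2]) := by
    have hq : Computable (fun s : ℕ => Nat.pair 0 (Nat.pair
        (CTerm.mul (.elt s.unpair.1.unpair.1) (.elt s.unpair.1.unpair.2)).code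
        (CTerm.elt s.unpair.2).code)) := by
      refine (Primrec₂.natPair.comp (Primrec.const 0) (Primrec₂.natPair.comp
        (Primrec₂.natPair.comp (Primrec.const 4) (Primrec₂.natPair.comp
          (Primrec₂.natPair.comp (Primrec.const 0) (u1.comp u1))
          (Primrec₂.natPair.comp (Primrec.const 0) (u2.comp u1))))
        (Primrec₂.natPair.comp (Primrec.const 0) u2))).to_comp
    refine tc_fun 𝒜 hq fun m c => ?_
    rw [Nat.unpair_pair]
    exact mem_diagram 𝒜 _ _
  exact hP.pair hQ

/-! ### The theorem -/

/-- The universe of `𝒜`, as a type of its own. -/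
def Car (_ : LA.Structure ℕ) : Type := ℕ

@[instance_reducible] instance (𝒜 : LA.Structure ℕ) : LA.Structure (Car 𝒜) := 𝒜

theorem equiv_of_models {𝒜 : LA.Structure ℕ} (h : ModelsTA 𝒜) :
    @ElementarilyEquivalent LA (Car 𝒜) ℕ _ std := by
  refine (@elementarilyEquivalent_iff LA (Car 𝒜) ℕ _ std).2 fun φ => ?_
  have h1 : ∀ ψ ∈ TA, (Car 𝒜) ⊨ ψ := fun ψ hψ => @Theory.realize_sentence_of_mem LA ℕ 𝒜 TA h ψ hψ
  constructor
  · intro h2
    by_contra h3
    have h4 : φ.not ∈ TA := h3
    exact h1 _ h4 h2
  · intro h2
    exact h1 φ h2

theorem main (𝒜 : LA.Structure ℕ) (h1 : ModelsTA 𝒜) (h2 : Nonstandard 𝒜) :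
    ∃ C : Set ℕ, UpperBound C ∧ TRed C (atomicDiagram 𝒜) ∧ ¬ TRed (atomicDiagram 𝒜) C := by
  classical
  have hM := equiv_of_models h1
  have hE : IsEmpty (@Language.Equiv LR (Car 𝒜) ℕ (gr (Car 𝒜)) stdS) := by
    constructor
    intro E
    obtain ⟨E'⟩ := iso_lift hM E
    exact h2.false E'
  let i1 : LR.Structure (Car 𝒜) := gr (Car 𝒜)
  obtain ⟨β, hβ1, hβ2, hβ3⟩ := Lib_helper6.TA.mainB Lib_helper6.TA.path_turing
    (isGr_gr (Car 𝒜)) (el_equiv hM) hE (Equiv.refl ℕ : Car 𝒜 ≃ ℕ) _ rfl
  have hC : chi {n | β n = true} = PFun.lift (fun n => bn (β n)) := by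
    funext n
    unfold chi bn PFun.lift
    by_cases h : β n = true
    · simp [h]
    · simp [h]
  have hD := operations_red 𝒜
  refine ⟨{n | β n = true}, fun S hS => ?_, ?_, fun h => ?_⟩
  · unfold TRed
    rw [hC]
    exact hβ2 S (ar_of_arithmetical hS)
  · unfold TRed
    rw [hC]
    exact TuringReducible.trans hβ1 hD
  · unfold TRed at h
    rw [hC] at h
    exact hβ3 (TuringReducible.trans hD h)

end

end Pool.Agent.Lib_helper6.NM
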